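import Pool.Agent.H40.VM.FIN

/-!
# The diffusive scaling limit of the interface of the weakly biased voter model

The process, the kernels, the Skorokhod space and convergence in distribution on it are defined
in `Pool.Agent.H40.Voter.Defs` (`Config`, `IsKernel`, `heaviside`), in
`Pool.Agent.H40.Voter.SkorDefs` (`SkoD`, `ConvInLaw`, `IsScaledInterface`), in
`Pool.Agent.H40.Voter.Ctmc` (`IsVoterProcess`, `VoterFam`, `IsDriftedBM`) and in
`Pool.Agent.H40.Voter.Tail` (`TailSmall`).
-/

open MeasureTheory ProbabilityTheory Filter Topology
open scoped ENNReal NNReal BoundedContinuousFunction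

namespace Pool.Agent.Results.MP_43b10a_pr.InterfaceLimit

open H40.Voter

/-- Let `a` be a kernel which satisfies the assumptions of the problem. Families of biased voter
models with this kernel exist. The tail condition `TailSmall a` holds if the third moment of the
left tail of `a` is finite. For every family of biased voter models with kernel `a`:

* if `a` is centred, all finite dimensional laws of the rescaled interface converge to those of the
  Brownian motion with variance `∑ k ^ 2 a k` and drift `- (∑ k ^ 2 a k) / 2`;
* if moreover `TailSmall a` holds, the rescaled interface converges in distribution to this process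
  in the Skorokhod space;
* conversely, if the rescaled interface converges in distribution in the Skorokhod space to some
  process, then `a` is centred and `TailSmall a` holds. -/
theorem result {a : ℤ → ℝ} (hk : IsKernel a) :
    Nonempty (VoterFam a) ∧
    ((Summable fun n : ℕ => (n : ℝ) ^ 3 * a (-(n : ℤ))) → TailSmall a) ∧
    ∀ V : VoterFam a, ∀ (Ω' : Type) [MeasurableSpace Ω'] (P' : Measure Ω') [IsProbabilityMeasure P']
      (Z : Ω' → SkoD), Measurable Z →
      (∑' k : ℤ, a k * (k : ℝ) = 0 →
        IsDriftedBM P' (√(∑' k : ℤ, a k * (k : ℝ) ^ 2)) (-(∑' k : ℤ, a k * (k : ℝ) ^ 2) / 2) Z →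
        (∀ (s : Finset ℝ≥0) (g : (s → ℝ) →ᵇ ℝ),
          Tendsto (fun ε : ℝ => ∫ ω, g (fun t => (V.Y ε ω).1 t) ∂(V.P ε)) (𝓝[>] 0)
            (𝓝 (∫ ω, g (fun t => (Z ω).1 t) ∂P'))) ∧
        (TailSmall a → ConvInLaw V.P V.Y P' Z)) ∧
      (ConvInLaw V.P V.Y P' Z → ∑' k : ℤ, a k * (k : ℝ) = 0 ∧ TailSmall a) :=
  final_statement hk

end Pool.Agent.Results.MP_43b10a_pr.InterfaceLimit
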