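import Pool.Agent.H40.VM.FINm

/-!
# The measure valued scaling limit of the weakly biased voter model

The process and the kernels are defined in `Pool.Agent.H40.Voter.Defs` (`Config`, `IsKernel`,
`heaviside`) and in `Pool.Agent.H40.Voter.Ctmc` (`IsVoterProcess`, `VoterFam`, `IsDriftedBM`). The
rescaled measure valued processes, the Skorokhod space of paths with values in the locally finite
measures on the line with the vague topology, and convergence in distribution on it are defined in
`Pool.Agent.H40.Voter.MeasDefs`.
-/

open MeasureTheory ProbabilityTheory Filter Topology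
open scoped ENNReal NNReal

namespace Pool.Agent.Results.MP_43b10a_pr.MeasureLimit

open H40.Voter

/-- Let `a` be a kernel which satisfies the assumptions of the problem. There is a family of biased
voter models with kernel `a` together with its rescaled measure valued processes
`ε ∑ X_{t/ε²}(i) δ_{ε i}`. For every such family:

* if `a` is centred, the measure valued processes converge in distribution to the process with
  Lebesgue density zero to the left of `Z_t` and one to the right of `Z_t`, where `Z` is the Brownian
  motion with variance `∑ k ^ 2 a k` and drift `- (∑ k ^ 2 a k) / 2`;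
* conversely, if the measure valued processes converge in distribution to some process, then `a` is
  centred. -/
theorem result {a : ℤ → ℝ} (hk : IsKernel a) :
    (∃ V : VoterFam a, Nonempty (MeasFam V)) ∧
    ∀ (V : VoterFam a) (M : MeasFam V) (Ω' : Type) [MeasurableSpace Ω'] (P' : Measure Ω')
      [IsProbabilityMeasure P'] (N : Ω' → MeasD), Measurable N →
      (∑' k : ℤ, a k * (k : ℝ) = 0 → ∀ Z : Ω' → SkoD, Measurable Z →
        IsDriftedBM P' (√(∑' k : ℤ, a k * (k : ℝ) ^ 2)) (-(∑' k : ℤ, a k * (k : ℝ) ^ 2) / 2) Z →
        IsSharp P' Z N → MConvInLaw V.P M.M P' N) ∧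
      (MConvInLaw V.P M.M P' N → ∑' k : ℤ, a k * (k : ℝ) = 0) :=
  final_meas hk

end Pool.Agent.Results.MP_43b10a_pr.MeasureLimit
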